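import Pool.Agent.W307.IM.FamA
import Pool.Agent.W672.FK.Lowf

/-!
# Project IM: the pairs and the family
-/

set_option autoImplicit false

namespace Pool.Agent.W307.IM

open Finset Filter Pool.Agent.W262.RK Pool.Agent.W307.RT Pool.Agent.W672.FK

lemma cg_eq (a b : ℕ) : cg (a, b) = (cA a b, cB a b) := by
  unfold cg cA cB
  refine Prod.ext ?_ ?_
  · change -3 * ((a : ℤ) ^ 2 - (a : ℤ) * (b : ℤ) + (b : ℤ) ^ 2) = _
    ring
  · change ((a : ℤ) + (b : ℤ)) * (2 * (b : ℤ) - (a : ℤ)) * (2 * (a : ℤ) - (b : ℤ)) = _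
    ring

lemma cAB_swap (a b : ℤ) : (cA a b, cB a b) = (cA b a, cB b a) := by
  unfold cA cB
  refine Prod.ext ?_ ?_
  · change _ = -((b + a) * (2 * b - a)) - (b + a) * (2 * a - b) + (2 * b - a) * (2 * a - b)
    ring
  · change _ = (b + a) * (2 * b - a) * (2 * a - b)
    ring

lemma mem_half {T H : ℕ} (hH : 2000000 * T ^ 6 ≤ H) {t : ℕ × ℕ} (ht : t ∈ Pr T)
    (hlt : t.2 < t.1) : (cA t.1 t.2, cB t.1 t.2) ∈ Cv 2 H := by
  classical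
  simp only [Pr, mem_filter, mem_product, mem_Icc] at ht
  obtain ⟨⟨⟨h1, h2⟩, h3, h4⟩, h5, h6⟩ := ht
  rw [← cg_eq]
  exact mem_cv2 h3 hlt h2 h6 hH

lemma inj_half {T : ℕ} {t t' : ℕ × ℕ} (ht : t ∈ Pr T) (hlt : t.2 < t.1) (ht' : t' ∈ Pr T)
    (hlt' : t'.2 < t'.1) (h : ((cA t.1 t.2, cB t.1 t.2) : ℤ × ℤ) = (cA t'.1 t'.2, cB t'.1 t'.2)) :
    t = t' := by
  classical
  simp only [Pr, mem_filter, mem_product, mem_Icc] at ht ht'
  obtain ⟨⟨⟨h1, h2⟩, h3, h4⟩, h5, h6⟩ := ht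
  obtain ⟨⟨⟨h1', h2'⟩, h3', h4'⟩, h5', h6'⟩ := ht'
  rw [← cg_eq, ← cg_eq] at h
  simp only [cg, Prod.mk.injEq] at h
  obtain ⟨e1, e2⟩ := cg_inj (by exact_mod_cast h3) (by exact_mod_cast hlt)
    (by exact_mod_cast h3') (by exact_mod_cast hlt') h.1 h.2
  exact Prod.ext (by exact_mod_cast e1) (by exact_mod_cast e2)

lemma sum_le_of_inj (U : Finset (ℕ × ℕ)) (V : Finset (ℤ × ℤ)) (φ : ℕ × ℕ → ℤ × ℤ)
    (h1 : ∀ t ∈ U, φ t ∈ V) (h2 : Set.InjOn φ U) (g : ℤ × ℤ → ℝ) (hg : ∀ c, 0 ≤ g c) :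
    ∑ t ∈ U, g (φ t) ≤ ∑ c ∈ V, g c := by
  classical
  rw [← sum_image (f := g) h2]
  refine sum_le_sum_of_subset_of_nonneg ?_ fun c _ _ => hg c
  intro c hc
  obtain ⟨t, ht, rfl⟩ := mem_image.1 hc
  exact h1 t ht

theorem fam3 : FAM3 := by
  classical
  refine ⟨2000000, 1 / 2, by norm_num, by norm_num, fun T _ H hH g hg => ?_⟩
  have h1 := sum_le_of_inj ((Pr T).filter (fun t => t.2 < t.1)) (Cv 2 H)
    (fun t => (cA t.1 t.2, cB t.1 t.2))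
    (fun t ht => mem_half hH (mem_filter.1 ht).1 (mem_filter.1 ht).2)
    (fun t ht t' ht' h => inj_half (mem_filter.1 (mem_coe.1 ht)).1 (mem_filter.1 (mem_coe.1 ht)).2
      (mem_filter.1 (mem_coe.1 ht')).1 (mem_filter.1 (mem_coe.1 ht')).2 h) g hg
  have hsw : ∀ t ∈ (Pr T).filter (fun t => ¬ t.2 < t.1), t.swap ∈ Pr T ∧ t.swap.2 < t.swap.1 := by
    intro t ht
    obtain ⟨ht1, ht2⟩ := mem_filter.1 ht
    simp only [Pr, mem_filter, mem_product, mem_Icc] at ht1 ⊢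
    obtain ⟨⟨⟨h1, h2⟩, h3, h4⟩, h5, h6⟩ := ht1
    refine ⟨⟨⟨⟨h3, h4⟩, h1, h2⟩, h5.symm, h6.symm⟩, ?_⟩
    change t.1 < t.2
    omega
  have h2 := sum_le_of_inj ((Pr T).filter (fun t => ¬ t.2 < t.1)) (Cv 2 H)
    (fun t => (cA t.1 t.2, cB t.1 t.2))
    (fun t ht => by
      obtain ⟨k1, k2⟩ := hsw t ht
      have := mem_half hH k1 k2
      rw [cAB_swap]
      exact this)
    (fun t ht t' ht' h => by
      obtain ⟨k1, k2⟩ := hsw t (mem_coe.1 ht)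
      obtain ⟨k1', k2'⟩ := hsw t' (mem_coe.1 ht')
      have h3 : t.swap = t'.swap := inj_half k1 k2 k1' k2' (by
        have h4 : ((cA t.1 t.2, cB t.1 t.2) : ℤ × ℤ) = (cA t'.1 t'.2, cB t'.1 t'.2) := h
        rw [cAB_swap, cAB_swap (t'.1 : ℤ)] at h4
        exact h4)
      exact Prod.swap_injective h3) g hg
  have h3 := sum_filter_add_sum_filter_not (Pr T) (fun t => t.2 < t.1)
    (fun t => g (cA t.1 t.2, cB t.1 t.2))
  have h4 : ∑ t ∈ Pr T, g (cA t.1 t.2, cB t.1 t.2) ≤ 2 * ∑ c ∈ Cv 2 H, g c := by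
    rw [← h3]
    linarith
  linarith

theorem fami : FAMI := fami_of fam3

end Pool.Agent.W307.IM
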