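import Mathlib
import Pool.Agent.W262.RK.Defs
import Pool.Agent.W307.RT.Defs

/-!
# Project IM: the moments of order `s > 2` of the 2-Selmer groups of the curves with full rational
2-torsion are infinite: statements
-/

set_option autoImplicit false

namespace Pool.Agent.W307.IM

open Finset Filter Pool.Agent.W262.RK Pool.Agent.W307.RT

/-- The local condition at a completion `K` of `ℚ`. -/
def Local (K : Type) [Field K] (A B : ℤ) (d : ℤ → ℤ) : Prop :=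
  ∃ x y : K, y ≠ 0 ∧ y ^ 2 = x ^ 3 + A * x + B ∧
    ∀ e : ℤ, e ^ 3 + A * e + B = 0 → IsSquare ((x - e) * d e)

/-- The 2-Selmer group of `y² = x³ + A x + B`, a curve with three integer roots. -/
def Sel2 (A B : ℤ) : Set (ℤ → ℤ) :=
  {d | (∀ e, Squarefree (d e)) ∧ (∀ e : ℤ, e ^ 3 + A * e + B ≠ 0 → d e = 1) ∧ Local ℝ A B d ∧
    ∀ (p : ℕ) [Fact p.Prime], Local ℚ_[p] A B d}

/-- a point of `y² = x (x² + 2 (a + b) x + (a - b)²)` with `x` in the class of `d` -/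
def Rp (a b : ℤ) (K : Type) [Field K] (d : ℤ) : Prop := ∃ x y k : K, k ≠ 0 ∧
  x = (d : K) * k ^ 2 ∧ y ≠ 0 ∧ x ≠ (a : K) - b ∧ x ≠ (b : K) - a ∧
  y ^ 2 = x * (x ^ 2 + 2 * ((a : K) + b) * x + ((a : K) - b) ^ 2)

/-- PG: good primes -/
def PG : Prop := ∀ (p : ℕ) [Fact p.Prime] (a b d : ℤ), p ≠ 2 → ¬ (p : ℤ) ∣ a → ¬ (p : ℤ) ∣ b →
  ¬ (p : ℤ) ∣ a - b → ¬ (p : ℤ) ∣ d → (∃ k : ℚ_[p], k ^ 2 = (d : ℚ_[p])) ∨ Rp a b ℚ_[p] d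

/-- PN: primes dividing `a - b`, units -/
def PN : Prop := ∀ (p : ℕ) [Fact p.Prime] (a b d : ℤ), 5 ≤ p → ¬ (p : ℤ) ∣ a →
  (p : ℤ) ∣ a - b → ¬ (p : ℤ) ∣ d → (∃ k : ℚ_[p], k ^ 2 = (d : ℚ_[p])) ∨ Rp a b ℚ_[p] d

/-- PT: split primes dividing `a - b` -/
def PT : Prop := ∀ (p : ℕ) [Fact p.Prime] (a b d : ℤ), 5 ≤ p → jacobiSym a p = 1 →
  (p : ℤ) ∣ a - b → (p : ℤ) ∣ d → ¬ (p : ℤ) ^ 2 ∣ d → a ≠ b → Rp a b ℚ_[p] d

/-- the split primes -/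
def S2 (a b : ℤ) : Finset ℕ := (a - b).natAbs.primeFactors.filter (fun p => 5 ≤ p ∧
  jacobiSym (3 * a) p = 1)

/-- the primes of additional conditions -/
def T2 (a b : ℤ) : Finset ℕ := (a * b).natAbs.primeFactors.filter (fun p => 5 ≤ p)

/-- the curve `y² = (x - e1) (x - e2) (x - e3)`, `e1 = -(a + b)`, `e2 = 2 a - b`,
`e3 = 2 b - a` -/
def cA (a b : ℤ) : ℤ := -((a + b) * (2 * a - b)) - (a + b) * (2 * b - a) + (2 * a - b) * (2 * b - a)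

/-- the constant coefficient -/
def cB (a b : ℤ) : ℤ := (a + b) * (2 * a - b) * (2 * b - a)

/-- SELL: lower bound for the 2-Selmer group -/
def SELL : Prop := ∀ a b : ℤ, a ≠ 0 → b ≠ 0 → a ≠ b → IsCoprime a b →
  (Sel2 (cA a b) (cB a b)).Finite →
  2 ^ (S2 a b).card ≤ 2 ^ ((T2 a b).card + 3) * (Sel2 (cA a b) (cB a b)).ncard

/-- the number `w = (log T) ^ A` -/
noncomputable def wT (A T : ℕ) : ℕ := ⌊(Real.log T) ^ A⌋₊ + 5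

open Classical in
/-- `z ^ ω(l)` for the `l` without prime factors `≤ w` -/
noncomputable def cz (z : ℝ) (w l : ℕ) : ℝ :=
  if 1 ≤ l ∧ ∀ p : ℕ, p.Prime → p ∣ l → w < p then z ^ l.primeFactors.card else 0

/-- the character sums -/
noncomputable def GG (z : ℝ) (w T f : ℕ) : ℝ := ∑ l ∈ range (T + 1), cz z w l * Jr l f

/-- ZLOW: the mean value of `cz` -/
def ZLOW : Prop := ∀ (z : ℝ) (A : ℕ), 0 < z → z < 1 → ∃ (C : ℝ) (T0 : ℕ), ∀ T : ℕ, T0 ≤ T →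
  (T : ℝ) * (Real.log T) ^ (z - 1) / (Real.log (Real.log T)) ^ C ≤ GG z (wT A T) T 1

/-- the number `K = K0 log log T` of prime factors -/
noncomputable def kT (K0 T : ℕ) : ℕ := ⌊(K0 : ℝ) * Real.log (Real.log T)⌋₊ + 1

/-- the bound for the prime factors -/
noncomputable def yT (K0 T : ℕ) : ℕ := ⌊(T : ℝ) ^ (1 / (4 * (kT K0 T : ℝ)))⌋₊

open Classical in
/-- the moduli: squarefree with all prime factors in `(w, y]` and at most `K` prime factors; they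
are at most `T ^ (1 / 4)` -/
noncomputable def ME (A K0 T : ℕ) : Finset ℕ :=
  (PP (wT A T) (yT K0 T)).divisors.filter (fun e => e.primeFactors.card ≤ kT K0 T)

/-- ELOW: the sum over the moduli -/
def ELOW : Prop := ∀ κ : ℝ, 0 < κ → ∃ K1 : ℕ, ∀ K0 A : ℕ, K1 ≤ K0 → ∃ (C : ℝ) (T0 : ℕ),
  ∀ T : ℕ, T0 ≤ T → (Real.log T) ^ κ / (Real.log (Real.log T)) ^ C ≤
    ∑ e ∈ ME A K0 T, κ ^ e.primeFactors.card / (e : ℝ)

/-- BADF: few moduli with a large character sum -/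
def BADF : Prop := ∀ (z lam : ℝ) (w T F : ℕ) (D : Finset ℕ), 0 < z → z < 1 → 0 < lam → 1 ≤ T →
  F ^ 3 ≤ T → (∀ f ∈ D, Odd f ∧ Squarefree f ∧ F < f ∧ f ≤ 2 * F ∧ lam * T < |GG z w T f|) →
  (D.card : ℝ) ≤ 20 / lam ^ 2

open Classical in
/-- the bad moduli -/
noncomputable def Bad (z lam : ℝ) (A K0 T : ℕ) : Finset ℕ :=
  (ME A K0 T).filter (fun e => ∃ f ∈ e.divisors, f ≠ 1 ∧ lam * T < |GG z (wT A T) T f|)

/-- BADE: the sum over the bad moduli is small -/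
def BADE : Prop := ∀ (z κ : ℝ) (B K0 : ℕ), 0 < z → z < 1 → 0 < κ → ∃ A0 : ℕ, ∀ A : ℕ, A0 ≤ A →
  ∃ T0 : ℕ, ∀ T : ℕ, T0 ≤ T →
    ∑ e ∈ Bad z (1 / (Real.log T) ^ B) A K0 T, κ ^ e.primeFactors.card / (e : ℝ) ≤
      1 / Real.log T

open Classical in
/-- the sum of `cz` over the `l` with `(3 l / p) = 1` for all `p ∣ e` -/
noncomputable def AE (z : ℝ) (w T e : ℕ) : ℝ :=
  ∑ l ∈ (range (T + 1)).filter (fun l : ℕ => ∀ p : ℕ, p.Prime → p ∣ e →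
    jacobiSym (3 * (l : ℤ)) p = 1), cz z w l

/-- AELO: lower bound for `AE` for the good moduli -/
def AELO : Prop := ∀ (z : ℝ) (K0 : ℕ), 0 < z → z < 1 → ∃ B0 : ℕ, ∀ B : ℕ, B0 ≤ B → ∃ A0 : ℕ,
  ∀ A : ℕ, A0 ≤ A → ∃ T0 : ℕ, ∀ T : ℕ, T0 ≤ T → ∀ e ∈ ME A K0 T,
    e ∉ Bad z (1 / (Real.log T) ^ B) A K0 T →
    GG z (wT A T) T 1 / (2 * 2 ^ e.primeFactors.card) ≤ AE z (wT A T) T e

open Classical in
/-- the pairs -/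
noncomputable def Pr (T : ℕ) : Finset (ℕ × ℕ) :=
  (Icc 1 T ×ˢ Icc 1 T).filter (fun t => t.1 ≠ t.2 ∧ t.1.Coprime t.2)

/-- the exponential moment -/
noncomputable def MS (s : ℝ) (T : ℕ) : ℝ :=
  ∑ t ∈ Pr T, (2 : ℝ) ^ (s * (((S2 t.1 t.2).card : ℝ) - (T2 t.1 t.2).card))

/-- EXPM: expansion and Cauchy's inequality; `z = 2 ^ (-s)`, `κ = 2 ^ s - 1` -/
def EXPM : Prop := ∀ (s : ℝ) (K0 : ℕ), 0 < s → ∃ A0 : ℕ, ∀ A : ℕ, A0 ≤ A → ∃ T0 : ℕ, ∀ T : ℕ,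
  T0 ≤ T → ∑ e ∈ ME A K0 T, ((2 : ℝ) ^ s - 1) ^ e.primeFactors.card *
    (2 ^ e.primeFactors.card / (e : ℝ)) * (AE ((2 : ℝ) ^ (-s)) (wT A T) T e) ^ 2 ≤
      MS s T + (T : ℝ) ^ 2 / (Real.log T) ^ 4

/-- ANA: the exponential moment is large -/
def ANA : Prop := ∀ s : ℝ, 2 < s → ∀ M : ℝ, ∃ T0 : ℕ, ∀ T : ℕ, T0 ≤ T → M * (T : ℝ) ^ 2 ≤ MS s T

/-- FAMI: the family -/
def FAMI : Prop := (∀ (H : ℕ), ∀ c ∈ Cv 2 H, (Sel2 c.1 c.2).Finite) ∧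
  ∃ (C0 : ℕ) (C1 c1 : ℝ), 0 < c1 ∧ 1 ≤ C0 ∧ ∀ (T : ℕ), 1 ≤ T →
    ∀ H : ℕ, C0 * T ^ 6 ≤ H → H ≤ C0 * (T + 1) ^ 6 →
    (((Cv 2 H).card : ℝ) ≤ C1 * (T : ℝ) ^ 2) ∧ ∀ g : ℤ × ℤ → ℝ, (∀ c, 0 ≤ g c) →
      c1 * ∑ t ∈ Pr T, g (cA t.1 t.2, cB t.1 t.2) ≤ ∑ c ∈ Cv 2 H, g c

end Pool.Agent.W307.IM
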