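import Pool.Agent.W307.IM.Main
import Pool.Agent.W307.IM.FamB
import Pool.Agent.W941.IM.PTS
import Pool.Agent.W673.IM.Sell
import Pool.Agent.W232.IM.Elow
import Pool.Agent.W430.IM.ZLOW
import Pool.Agent.W81.IM.BAD
import Pool.Agent.W779.IM.AELO
import Pool.Agent.W839.IM.EXPM
import Pool.Agent.W190.IM.ANA

/-!
# Project IM: conclusion
-/

set_option autoImplicit false

namespace Pool.Agent.W307.IM

open Finset Filter Pool.Agent.W307.RT

theorem sell : SELL := Pool.Agent.W673.IM.sell_of Pool.Agent.W941.IM.pg Pool.Agent.W941.IM.pn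
  Pool.Agent.W941.IM.pt

theorem zlow : ZLOW := Pool.Agent.W430.IM.ZLOW.zlow_of Pool.Agent.W232.IM.elow

theorem ana : ANA := Pool.Agent.W190.IM.ana_of zlow Pool.Agent.W232.IM.elow
  Pool.Agent.W81.IM.bade (Pool.Agent.W779.IM.aelo_of zlow) Pool.Agent.W839.IM.expm

theorem fin (s : ℝ) (hs : 2 < s) :
    Tendsto (fun H : ℕ => (∑ c ∈ Cv 2 H, ((Sel2 c.1 c.2).ncard : ℝ) ^ s) / (Cv 2 H).card)
      atTop atTop := main_of sell ana fami s hs

theorem finite_sel (H : ℕ) : ∀ c ∈ Cv 2 H, (Sel2 c.1 c.2).Finite := fam1 H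

end Pool.Agent.W307.IM
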