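import Pool.Agent.W307.IM.Stm
import Pool.Agent.W307.AT.Ht
import Pool.Agent.W307.FK.Main

/-!
# Project IM: finiteness of the 2-Selmer groups and the number of the curves
-/

set_option autoImplicit false

namespace Pool.Agent.W307.IM

open Finset Filter Pool.Agent.W262.RK Pool.Agent.W307.RT Pool.Agent.W307.RS Pool.Agent.W307.SE
open Pool.Agent.W307.FK Pool.Agent.W410.FK

theorem fam1 : ∀ (H : ℕ), ∀ c ∈ Cv 2 H, (Pool.Agent.W307.IM.Sel2 c.1 c.2).Finite := by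
  obtain ⟨C, hC⟩ := Pool.Agent.W307.FK.finh
  exact fun H => (hC H).1

theorem fam2 (C0 : ℕ) : ∀ (T : ℕ), 1 ≤ T → ∀ H : ℕ, H ≤ C0 * (T + 1) ^ 6 →
    ((Cv 2 H).card : ℝ) ≤ (64 * (C0 : ℝ) + 1) ^ 2 * (T : ℝ) ^ 2 := by
  classical
  obtain ⟨F, hinj, hF⟩ := Pool.Agent.W513.FK.parf
  have hmem : ∀ H, ∀ c ∈ Cv 2 H, 4 * c.1 ^ 3 + 27 * c.2 ^ 2 ≠ 0 ∧ 4 * |c.1| ^ 3 ≤ H ∧
      HasT 2 (Sh c.1 c.2) := by
    intro H c hc
    unfold Cv at hc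
    obtain ⟨_, a1, a2, _, _, a3⟩ := mem_filter.1 hc
    exact ⟨a1, a2, a3⟩
  let F' : ℤ × ℤ → ℤ × ℤ := fun c => (((F c).1 : ℤ) * (F c).2.1, ((F c).1 : ℤ) * (F c).2.2)
  have key : ∀ H, ∀ c ∈ Cv 2 H, (F' c).1.natAbs ^ 6 ≤ 16 * H ∧
        (F' c).2.natAbs ^ 6 ≤ 16 * H := by
    intro H c hc
    obtain ⟨a1, a2, a3⟩ := hmem H c hc
    obtain ⟨b1, b2, b3, b4, b5, e1, e2, e3, hr, d1, d2⟩ := hF c a1 a3
    obtain ⟨r1, r2⟩ := root_bd hr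
    refine ⟨?_, ?_⟩
    · rw [d1] at r1
      exact size_bd r1 a2
    · rw [d2] at r2
      exact size_bd r2 a2
  have hinj' : ∀ H, Set.InjOn F' (Cv 2 H : Set (ℤ × ℤ)) := by
    intro H c hc c' hc' h
    obtain ⟨a1, _, a3⟩ := hmem H c hc
    obtain ⟨a1', _, a3'⟩ := hmem H c' hc'
    obtain ⟨b1, b2, _⟩ := hF c a1 a3
    obtain ⟨b1', b2', _⟩ := hF c' a1' a3'
    apply hinj ⟨a1, a3⟩ ⟨a1', a3'⟩
    have hgcd : ∀ x : ℕ × ℤ × ℤ, IsCoprime x.2.1 x.2.2 →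
        Int.gcd ((x.1 : ℤ) * x.2.1) ((x.1 : ℤ) * x.2.2) = x.1 := by
      intro x hx
      rw [Int.gcd_mul_left, Int.isCoprime_iff_gcd_eq_one.1 hx, mul_one, Int.natAbs_natCast]
    have g1 : (F c).1 = (F c').1 := by
      rw [← hgcd _ b2, ← hgcd _ b2']
      have k1 := congrArg Prod.fst h
      have k2 := congrArg Prod.snd h
      change ((F c).1 : ℤ) * (F c).2.1 = ((F c').1 : ℤ) * (F c').2.1 at k1
      change ((F c).1 : ℤ) * (F c).2.2 = ((F c').1 : ℤ) * (F c').2.2 at k2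
      rw [k1, k2]
    have hg : ((F c).1 : ℤ) ≠ 0 := by exact_mod_cast (by omega : (F c).1 ≠ 0)
    have k1 : ((F c).1 : ℤ) * (F c).2.1 = ((F c').1 : ℤ) * (F c').2.1 := congrArg Prod.fst h
    have k2 : ((F c).1 : ℤ) * (F c).2.2 = ((F c').1 : ℤ) * (F c').2.2 := congrArg Prod.snd h
    rw [← g1] at k1 k2
    exact Prod.ext g1 (Prod.ext (mul_left_cancel₀ hg k1) (mul_left_cancel₀ hg k2))
  intro T hT H hH
  have hb : ∀ x : ℕ, x ^ 6 ≤ 16 * H → x ≤ 32 * C0 * T := by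
    intro x hx
    have h1 : x ^ 6 ≤ (32 * C0 * T) ^ 6 := by
      calc x ^ 6 ≤ 16 * H := hx
        _ ≤ 16 * (C0 * (T + 1) ^ 6) := Nat.mul_le_mul_left _ hH
        _ ≤ 16 * (C0 * (2 * T) ^ 6) :=
          Nat.mul_le_mul_left _ (Nat.mul_le_mul_left _ (Nat.pow_le_pow_left (by omega) 6))
        _ = (16 * C0) * (2 * T) ^ 6 := by ring
        _ ≤ (16 * C0) ^ 6 * (2 * T) ^ 6 :=
          Nat.mul_le_mul_right _ (Nat.le_self_pow (by norm_num) _)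
        _ = (32 * C0 * T) ^ 6 := by ring
    exact (Nat.pow_le_pow_iff_left (by norm_num)).1 h1
  have hcard : (Cv 2 H).card ≤ ((Icc (-((32 * C0 * T : ℕ) : ℤ)) ((32 * C0 * T : ℕ) : ℤ)) ×ˢ
      (Icc (-((32 * C0 * T : ℕ) : ℤ)) ((32 * C0 * T : ℕ) : ℤ))).card := by
    refine card_le_card_of_injOn F' ?_ (hinj' H)
    intro c hc
    obtain ⟨k1, k2⟩ := key H c hc
    have l1 := hb _ k1
    have l2 := hb _ k2
    simp only [coe_product, Set.mem_prod, mem_coe, mem_Icc]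
    refine ⟨⟨by omega, by omega⟩, by omega, by omega⟩
  rw [card_product, Int.card_Icc] at hcard
  have e1 : (((32 * C0 * T : ℕ) : ℤ) + 1 - -((32 * C0 * T : ℕ) : ℤ)).toNat =
      64 * C0 * T + 1 := by
    push_cast
    have : ((32 : ℤ) * C0 * T + 1 - -(32 * C0 * T)) = ((64 * C0 * T + 1 : ℕ) : ℤ) := by
      push_cast
      ring
    rw [this, Int.toNat_natCast]
  rw [e1] at hcard
  have h2 : ((Cv 2 H).card : ℝ) ≤ (64 * (C0 : ℝ) * T + 1) * (64 * (C0 : ℝ) * T + 1) := by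
    exact_mod_cast hcard
  have hT1 : (1 : ℝ) ≤ T := by exact_mod_cast hT
  have h3 : 64 * (C0 : ℝ) * T + 1 ≤ (64 * C0 + 1) * T := by nlinarith
  have h4 : (0 : ℝ) ≤ 64 * (C0 : ℝ) * T + 1 := by positivity
  calc ((Cv 2 H).card : ℝ) ≤ (64 * (C0 : ℝ) * T + 1) * (64 * (C0 : ℝ) * T + 1) := h2
    _ ≤ ((64 * C0 + 1) * T) * ((64 * C0 + 1) * T) := mul_le_mul h3 h3 h4 (h4.trans h3)
    _ = _ := by ring

/-- the third part, as a statement -/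
def FAM3 : Prop := ∃ (C0 : ℕ) (c1 : ℝ), 0 < c1 ∧ 1 ≤ C0 ∧ ∀ (T : ℕ), 1 ≤ T → ∀ H : ℕ,
  C0 * T ^ 6 ≤ H → ∀ g : ℤ × ℤ → ℝ, (∀ c, 0 ≤ g c) →
    c1 * ∑ t ∈ Pr T, g (cA t.1 t.2, cB t.1 t.2) ≤ ∑ c ∈ Cv 2 H, g c

theorem fami_of (h : FAM3) : FAMI := by
  obtain ⟨C0, c1, hc1, hC0, h3⟩ := h
  refine ⟨fam1, C0, (64 * (C0 : ℝ) + 1) ^ 2, c1, hc1, hC0, fun T hT H h1 h2 => ⟨?_, ?_⟩⟩
  · exact fam2 C0 T hT H h2
  · exact h3 T hT H h1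

end Pool.Agent.W307.IM
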