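import Pool.Agent.W307.IM.Stm

/-!
# Project IM: the final assembly
-/

set_option autoImplicit false

namespace Pool.Agent.W307.IM

open Finset Filter Pool.Agent.W262.RK Pool.Agent.W307.RT

/-- the pairs of the box are in the family -/
lemma mem_fam (c1 : ℝ) (hc1 : 0 < c1) (T H : ℕ)
    (hg : ∀ g : ℤ × ℤ → ℝ, (∀ c, 0 ≤ g c) →
      c1 * ∑ t ∈ Pr T, g (cA t.1 t.2, cB t.1 t.2) ≤ ∑ c ∈ Cv 2 H, g c)
    (t : ℕ × ℕ) (ht : t ∈ Pr T) : (cA t.1 t.2, cB t.1 t.2) ∈ Cv 2 H := by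
  classical
  by_contra hcon
  have h := hg (fun c => if c = (cA t.1 t.2, cB t.1 t.2) then 1 else 0)
    (by intro c; split_ifs <;> norm_num)
  have h1 : ∑ c ∈ Cv 2 H, (if c = (cA t.1 t.2, cB t.1 t.2) then (1 : ℝ) else 0) = 0 := by
    apply Finset.sum_eq_zero
    intro c hc
    rw [if_neg]
    rintro rfl
    exact hcon hc
  have h2 : (1 : ℝ) ≤ ∑ u ∈ Pr T, (if (cA (u.1 : ℤ) u.2, cB (u.1 : ℤ) u.2) =
      (cA (t.1 : ℤ) t.2, cB (t.1 : ℤ) t.2) then (1 : ℝ) else 0) := by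
    refine le_trans ?_ (Finset.single_le_sum (f := fun u : ℕ × ℕ =>
      (if (cA (u.1 : ℤ) u.2, cB (u.1 : ℤ) u.2) =
      (cA (t.1 : ℤ) t.2, cB (t.1 : ℤ) t.2) then (1 : ℝ) else 0)) (fun u _ => by
        split_ifs <;> norm_num) ht)
    simp
  rw [h1] at h
  nlinarith [mul_le_mul_of_nonneg_left h2 hc1.le]

/-- the lower bound for a power of the order of the Selmer group -/
lemma sel_low (ell : SELL) (s : ℝ) (hs : 0 < s) (T : ℕ) (t : ℕ × ℕ) (ht : t ∈ Pr T)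
    (hf : (Sel2 (cA t.1 t.2) (cB t.1 t.2)).Finite) :
    (2 : ℝ) ^ (-(3 * s)) * (2 : ℝ) ^ (s * (((S2 t.1 t.2).card : ℝ) - (T2 t.1 t.2).card)) ≤
      ((Sel2 (cA t.1 t.2) (cB t.1 t.2)).ncard : ℝ) ^ s := by
  classical
  simp only [Pr, mem_filter, mem_product, mem_Icc] at ht
  obtain ⟨⟨⟨h1, h2⟩, h3, h4⟩, h5, h6⟩ := ht
  have hl := ell (t.1 : ℤ) (t.2 : ℤ) (by omega) (by omega) (by exact_mod_cast h5)
    (Nat.isCoprime_iff_coprime.mpr h6) hf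
  have hl' : (2 : ℝ) ^ (S2 t.1 t.2).card ≤ 2 ^ ((T2 t.1 t.2).card + 3) *
      ((Sel2 (cA t.1 t.2) (cB t.1 t.2)).ncard : ℝ) := by
    exact_mod_cast hl
  have h7 : (2 : ℝ) ^ ((((S2 t.1 t.2).card : ℝ) - (T2 t.1 t.2).card) - 3) ≤
      ((Sel2 (cA t.1 t.2) (cB t.1 t.2)).ncard : ℝ) := by
    rw [← Real.rpow_natCast, ← Real.rpow_natCast] at hl'
    have h8 : (((S2 (t.1 : ℤ) t.2).card : ℝ)) =
        (((T2 (t.1 : ℤ) t.2).card + 3 : ℕ) : ℝ) +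
          ((((S2 (t.1 : ℤ) t.2).card : ℝ) - (T2 (t.1 : ℤ) t.2).card) - 3) := by
      push_cast
      ring
    rw [h8, Real.rpow_add (by norm_num)] at hl'
    have h9 : (0 : ℝ) < 2 ^ (((T2 (t.1 : ℤ) t.2).card + 3 : ℕ) : ℝ) := by positivity
    exact le_of_mul_le_mul_left hl' h9
  calc (2 : ℝ) ^ (-(3 * s)) * (2 : ℝ) ^ (s * (((S2 t.1 t.2).card : ℝ) - (T2 t.1 t.2).card))
      = ((2 : ℝ) ^ ((((S2 t.1 t.2).card : ℝ) - (T2 t.1 t.2).card) - 3)) ^ s := by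
        rw [← Real.rpow_add (by norm_num), ← Real.rpow_mul (by norm_num)]
        congr 1
        ring
    _ ≤ _ := Real.rpow_le_rpow (by positivity) h7 hs.le

/-- **The moments of order `s > 2` are infinite.** -/
theorem main_of (ell : SELL) (ana : ANA) (fami : FAMI) (s : ℝ) (hs : 2 < s) :
    Tendsto (fun H : ℕ => (∑ c ∈ Cv 2 H, ((Sel2 c.1 c.2).ncard : ℝ) ^ s) / (Cv 2 H).card)
      atTop atTop := by
  obtain ⟨hfin, C0, C1, c1, hc1, hC0, hfam⟩ := fami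
  rw [tendsto_atTop]
  intro M
  have hs0 : 0 < s := by linarith
  set M' : ℝ := |M| * |C1| * 2 ^ (3 * s) / c1 with hM'
  obtain ⟨T0, hT0⟩ := ana s hs M'
  filter_upwards [eventually_ge_atTop (C0 * (T0 + 2) ^ 6)] with H hH
  obtain ⟨T, hT1, hT2, hT3⟩ : ∃ T : ℕ, T0 + 2 ≤ T ∧ C0 * T ^ 6 ≤ H ∧ H ≤ C0 * (T + 1) ^ 6 := by
    have hle : T0 + 2 ≤ H := by
      calc T0 + 2 ≤ (T0 + 2) ^ 6 := Nat.le_self_pow (by norm_num) _
        _ ≤ C0 * (T0 + 2) ^ 6 := Nat.le_mul_of_pos_left _ hC0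
        _ ≤ H := hH
    refine ⟨Nat.findGreatest (fun T => C0 * T ^ 6 ≤ H) H, ?_, ?_, ?_⟩
    · exact Nat.le_findGreatest hle hH
    · exact Nat.findGreatest_spec (P := fun T => C0 * T ^ 6 ≤ H) hle hH
    · by_contra hcon
      push Not at hcon
      have h1 : C0 * (Nat.findGreatest (fun T => C0 * T ^ 6 ≤ H) H + 1) ^ 6 ≤ H := hcon.le
      have h2 : Nat.findGreatest (fun T => C0 * T ^ 6 ≤ H) H + 1 ≤ H := by
        calc Nat.findGreatest (fun T => C0 * T ^ 6 ≤ H) H + 1 ≤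
            (Nat.findGreatest (fun T => C0 * T ^ 6 ≤ H) H + 1) ^ 6 :=
              Nat.le_self_pow (by norm_num) _
          _ ≤ C0 * (Nat.findGreatest (fun T => C0 * T ^ 6 ≤ H) H + 1) ^ 6 :=
            Nat.le_mul_of_pos_left _ hC0
          _ ≤ H := h1
      have h3 := Nat.le_findGreatest (P := fun T => C0 * T ^ 6 ≤ H) h2 h1
      omega
  have hT1' : 1 ≤ T := by omega
  obtain ⟨hcard, hg⟩ := hfam T hT1' H hT2 hT3
  have hmem := mem_fam c1 hc1 T H hg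
  have hpos : (0 : ℝ) < ((Cv 2 H).card : ℝ) := by
    have h12 : ((1 : ℕ), (2 : ℕ)) ∈ Pr T := by
      classical
      simp only [Pr, mem_filter, mem_product, mem_Icc]
      refine ⟨⟨⟨by norm_num, by omega⟩, by norm_num, by omega⟩, by norm_num, by norm_num⟩
    have := hmem _ h12
    exact_mod_cast Finset.card_pos.mpr ⟨_, this⟩
  rw [le_div_iff₀ hpos]
  have hT2pos : (0 : ℝ) ≤ (T : ℝ) ^ 2 := by positivity
  have h1 : c1 * ∑ t ∈ Pr T, (2 : ℝ) ^ (-(3 * s)) *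
      (2 : ℝ) ^ (s * (((S2 t.1 t.2).card : ℝ) - (T2 t.1 t.2).card)) ≤
      ∑ c ∈ Cv 2 H, ((Sel2 c.1 c.2).ncard : ℝ) ^ s := by
    refine le_trans (mul_le_mul_of_nonneg_left (Finset.sum_le_sum fun t ht => ?_) hc1.le)
      (hg (fun c => ((Sel2 c.1 c.2).ncard : ℝ) ^ s) (fun c => by positivity))
    exact sel_low ell s hs0 T t ht (hfin H _ (hmem t ht))
  rw [← Finset.mul_sum] at h1
  have h2 : M' * (T : ℝ) ^ 2 ≤ MS s T := hT0 T (by omega)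
  have h3 : (2 : ℝ) ^ (-(3 * s)) * 2 ^ (3 * s) = 1 := by
    rw [← Real.rpow_add (by norm_num)]
    simp
  have h4 : c1 * ((2 : ℝ) ^ (-(3 * s)) * (M' * (T : ℝ) ^ 2)) = |M| * (|C1| * (T : ℝ) ^ 2) := by
    have h5 : c1 * M' = |M| * |C1| * 2 ^ (3 * s) := by
      rw [hM']
      field_simp
    calc c1 * ((2 : ℝ) ^ (-(3 * s)) * (M' * (T : ℝ) ^ 2))
        = (c1 * M') * (2 : ℝ) ^ (-(3 * s)) * (T : ℝ) ^ 2 := by ring
      _ = |M| * |C1| * (T : ℝ) ^ 2 * ((2 : ℝ) ^ (-(3 * s)) * 2 ^ (3 * s)) := by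
        rw [h5]
        ring
      _ = _ := by rw [h3]; ring
  calc M * ((Cv 2 H).card : ℝ) ≤ |M| * ((Cv 2 H).card : ℝ) :=
        mul_le_mul_of_nonneg_right (le_abs_self M) hpos.le
    _ ≤ |M| * (|C1| * (T : ℝ) ^ 2) := mul_le_mul_of_nonneg_left
        (hcard.trans (mul_le_mul_of_nonneg_right (le_abs_self C1) hT2pos)) (abs_nonneg M)
    _ = c1 * ((2 : ℝ) ^ (-(3 * s)) * (M' * (T : ℝ) ^ 2)) := h4.symm
    _ ≤ c1 * ((2 : ℝ) ^ (-(3 * s)) * MS s T) := by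
        refine mul_le_mul_of_nonneg_left (mul_le_mul_of_nonneg_left h2 ?_) hc1.le
        positivity
    _ ≤ _ := h1

end Pool.Agent.W307.IM
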